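import Pool.Agent.Q212.ZE.BR
import Pool.Agent.Q222.ZE.All

/-!
# Finitary partitions do not inject into the 3-cycles

In every model of Zermelo set theory (so in every model of ZF): if a set `a` is infinite, then
there is no injection from the set of all finitary partitions of `a` to the set of all permutations
of `a` with exactly three non-fixed points.

So ZF proves that `|B(A)| < |S_3(A)|` fails for every infinite set `A`.
-/

namespace Pool.Agent.Results.MP_1929a6_lc.NoInjection

open FirstOrder FirstOrder.Language
open Pool.Agent.Helper672.Plain (LSet Zermelo)
open Pool.Agent.H310Cards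
open Pool.Agent.Q212.ZADefs
open Pool.Agent.Q212.ZEDefs

universe u

theorem result (M : Type u) [LSet.Structure M] [Zermelo M] (a B s f : M)
    (hB : IsFinPartSet B a) (hs : IsThreeCycleSet s a) (ha : ¬ IsFinite a) : ¬ IsInj f B s :=
  Pool.Agent.Q212.ZE.result_of Pool.Agent.Q222.ZE.all_jobs M a B s f hB hs ha

end Pool.Agent.Results.MP_1929a6_lc.NoInjection
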